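import Pool.Agent.H56.CF.Targets

/-!
# The conductors of the characters in the family (row RCNT)
-/

set_option autoImplicit false

open NumberField Module
open scoped nonZeroDivisors

namespace Pool.Agent.H49.CF

open Pool.Agent.H56.CF Pool.Agent.H91.CF Pool.Agent.H28.RC Pool.Agent.H24.Cls

theorem pf_CNT (hC : Pool.Agent.H91.CF.T_CND) (hN : Pool.Agent.H91.CF.T_NRF) : T_CNT := by
  intro K _ _ X hK hX
  have hsub : OX K X ⊆ ⋃ f ∈ Finset.Icc 1 ⌊√(X / |(discr K : ℝ)|)⌋₊, RQ K f := by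
    rintro χ ⟨h1, -, h3⟩
    obtain ⟨f, hf, hχ⟩ := hC K hK χ h1
    rw [Set.mem_iUnion₂]
    refine ⟨f, ?_, h1, hχ⟩
    rw [Finset.mem_Icc]
    refine ⟨hf, Nat.le_floor ?_⟩
    have hd : (discr K : ℝ) ≠ 0 := by exact_mod_cast NumberField.discr_ne_zero K
    have hd' : 0 < |(discr K : ℝ)| := abs_pos.mpr hd
    have hn : Ideal.absNorm χ.f = f ^ 2 := by
      rw [hχ, Ideal.absNorm_span_natCast, RingOfIntegers.rank, hK]
    rw [hn] at h3
    push_cast at h3
    apply Real.le_sqrt_of_sq_le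
    rw [le_div_iff₀ hd']
    linarith
  have hfin : (⋃ f ∈ Finset.Icc 1 ⌊√(X / |(discr K : ℝ)|)⌋₊, RQ K f).Finite :=
    Set.Finite.biUnion (Finset.finite_toSet _) fun f hf =>
      (hN f K (Finset.mem_Icc.mp (Finset.mem_coe.mp hf)).1 hK).1
  exact ⟨hfin.subset hsub,
    (Set.ncard_le_ncard hsub hfin).trans (Finset.set_ncard_biUnion_le _ _)⟩

end Pool.Agent.H49.CF
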