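import Pool.Agent.H56.CF.Targets

/-!
# Sums of class numbers of real quadratic fields (row RSHE)
-/

set_option autoImplicit false

open NumberField Module
open scoped nonZeroDivisors

namespace Pool.Agent.H49.CF

open Pool.Agent.H56.CF Pool.Agent.H91.CF Pool.Agent.H28.RC Pool.Agent.H24.Cls

theorem she_discr (K : Type) [Field K] [NumberField K] (h : finrank ℚ K = 2)
    (h0 : 0 < discr K) : 5 ≤ discr K := by
  obtain ⟨Q, hQ⟩ := exists_quad K h
  have h1 : discr K ≠ 1 := by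
    have := Q.not_square 1
    rw [hQ] at this
    simpa using this
  have h2 : discr K ≠ 4 := by
    have := Q.not_square 2
    rw [hQ] at this
    norm_num at this
    exact this
  have h3 : Q.t ^ 2 - 4 * Q.n = discr K := hQ
  rcases Int.even_or_odd' Q.t with ⟨k, hk | hk⟩
  · have h4 : Q.t ^ 2 = 4 * (k * k) := by rw [hk]; ring
    rw [h4] at h3
    generalize k * k = m at h3
    omega
  · have h4 : Q.t ^ 2 = 4 * (k * k + k) + 1 := by rw [hk]; ring
    rw [h4] at h3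
    generalize k * k = m at h3
    omega

theorem she_log (d : ℝ) (hd : 5 ≤ d) : Real.log d / 8 ≤ Real.log (√d - 1) := by
  have hd0 : 0 ≤ d := by linarith
  have h1 : (2.236 : ℝ) ≤ √d := by
    apply Real.le_sqrt_of_sq_le
    norm_num
    linarith
  have hsq : √d ^ 2 = d := Real.sq_sqrt hd0
  obtain ⟨t, ht⟩ : ∃ t : ℝ, t = √d - 1 := ⟨_, rfl⟩
  have ht1 : 1.236 ≤ t := by rw [ht]; linarith
  have h2 : √d ≤ t ^ 4 := by
    have h3 : √d = t + 1 := by rw [ht]; ring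
    rw [h3]
    have h4 : (1.5276 : ℝ) ≤ t ^ 2 := by nlinarith
    have h5 : 1.5276 * t ^ 2 ≤ t ^ 4 := by
      have : t ^ 4 = t ^ 2 * t ^ 2 := by ring
      rw [this]
      exact mul_le_mul_of_nonneg_right h4 (by positivity)
    nlinarith
  rw [← ht]
  have h6 : Real.log (√d) ≤ 4 * Real.log t := by
    have h7 := Real.log_le_log (by linarith : 0 < √d) h2
    rw [Real.log_pow] at h7
    exact_mod_cast h7
  rw [Real.log_sqrt hd0] at h6
  linarith

theorem pf_SHE (hA : T_SHA) (hR : T_SHR) : T_SHE := by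
  refine ⟨1340, by norm_num, ?_⟩
  intro K _ _ S Y hF hpos hY
  classical
  have hY0 : 0 < Y := by linarith
  have hY1 : 1 ≤ Y := by linarith
  have hlog : 0 < Real.log Y := Real.log_pos (by linarith)
  have hsY : 1 ≤ √Y := Real.one_le_sqrt.mpr hY1
  have hF1 : Fam K (S.filter fun d : ℤ => (d : ℝ) ≤ √Y) (√Y) := by
    intro d hd
    rw [Finset.mem_filter] at hd
    obtain ⟨h1, h2, -⟩ := hF d hd.1
    refine ⟨h1, h2, ?_⟩
    have h3 : (0 : ℝ) < d := by exact_mod_cast hpos d hd.1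
    rw [abs_of_pos h3]
    exact hd.2
  have hF2 : Fam K (S.filter fun d : ℤ => ¬ (d : ℝ) ≤ √Y) Y := by
    intro d hd
    rw [Finset.mem_filter] at hd
    exact hF d hd.1
  have hsum1 := hA K _ _ hF1 hsY
  have hsum2 := hR K _ _ hF2 (fun d hd => hpos d (Finset.mem_filter.mp hd).1) hY1
  have hp1 : √Y ^ (3 / 2 : ℝ) = Y ^ (3 / 4 : ℝ) := by
    rw [Real.sqrt_eq_rpow, ← Real.rpow_mul hY0.le]
    norm_num
  rw [hp1] at hsum1
  have hlow : ∀ d ∈ S.filter (fun d : ℤ => ¬ (d : ℝ) ≤ √Y),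
      (classNumber (K d) : ℝ) * (Real.log Y / 32) ≤
        (classNumber (K d) : ℝ) * (Real.log (√(d : ℝ) - 1) / 2) := by
    intro d hd
    rw [Finset.mem_filter, not_le] at hd
    obtain ⟨h1, h2, -⟩ := hF d hd.1
    have h3 : 5 ≤ discr (K d) := she_discr (K d) h1 (by rw [h2]; exact hpos d hd.1)
    rw [h2] at h3
    have h4 : (5 : ℝ) ≤ d := by exact_mod_cast h3
    have h5 := she_log d h4
    have h6 := Real.log_le_log (by linarith : 0 < √Y) hd.2.le
    rw [Real.log_sqrt hY0.le] at h6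
    apply mul_le_mul_of_nonneg_left _ (Nat.cast_nonneg _)
    linarith
  have hs2 : (∑ d ∈ S.filter (fun d : ℤ => ¬ (d : ℝ) ≤ √Y), (classNumber (K d) : ℝ)) *
      (Real.log Y / 32) ≤ 40 * Y ^ (3 / 2 : ℝ) := by
    rw [Finset.sum_mul]
    exact (Finset.sum_le_sum hlow).trans hsum2
  have hsplit : ∑ d ∈ S, (classNumber (K d) : ℝ) =
      ∑ d ∈ S.filter (fun d : ℤ => (d : ℝ) ≤ √Y), (classNumber (K d) : ℝ) +
        ∑ d ∈ S.filter (fun d : ℤ => ¬ (d : ℝ) ≤ √Y), (classNumber (K d) : ℝ) :=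
    (Finset.sum_filter_add_sum_filter_not S (fun d : ℤ => (d : ℝ) ≤ √Y)
      (fun d => (classNumber (K d) : ℝ))).symm
  rw [hsplit, le_div_iff₀ hlog, add_mul]
  have h7 : Real.log Y ≤ Y ^ (3 / 4 : ℝ) / (3 / 4) := Real.log_le_rpow_div hY0.le (by norm_num)
  have h8 : Y ^ (3 / 4 : ℝ) * Y ^ (3 / 4 : ℝ) = Y ^ (3 / 2 : ℝ) := by
    rw [← Real.rpow_add hY0]
    norm_num
  have h9 : (∑ d ∈ S.filter (fun d : ℤ => (d : ℝ) ≤ √Y), (classNumber (K d) : ℝ)) * Real.log Y ≤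
      60 * Y ^ (3 / 2 : ℝ) := by
    have h10 : 0 < Y ^ (3 / 4 : ℝ) := Real.rpow_pos_of_pos hY0 _
    calc _ ≤ (40 * Y ^ (3 / 4 : ℝ)) * (Y ^ (3 / 4 : ℝ) / (3 / 4)) :=
          mul_le_mul hsum1 h7 hlog.le (by positivity)
      _ = (160 / 3) * (Y ^ (3 / 4 : ℝ) * Y ^ (3 / 4 : ℝ)) := by ring
      _ = (160 / 3) * Y ^ (3 / 2 : ℝ) := by rw [h8]
      _ ≤ 60 * Y ^ (3 / 2 : ℝ) := by
          have : 0 < Y ^ (3 / 2 : ℝ) := Real.rpow_pos_of_pos hY0 _
          linarith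
  linarith

end Pool.Agent.H49.CF
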