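import Pool.Agent.H37.CF.Basic

/-!
# The number of pairs prime to a prime power (row CCNP)
-/

set_option autoImplicit false

open NumberField Pool.Agent.H31.CN Pool.Agent.H95.CF Pool.Agent.H28.RC Pool.Agent.H37.CF
open scoped nonZeroDivisors

namespace Pool.Agent.H49.CF

theorem cnp_gcd (v : ℤ) (p k : ℕ) (hp : p.Prime) (hk : 1 ≤ k) :
    Int.gcd v ((p ^ k : ℕ) : ℤ) = 1 ↔ ¬ (p : ℤ) ∣ v := by
  rw [← Int.isCoprime_iff_gcd_eq_one, Nat.cast_pow, IsCoprime.pow_right_iff (by omega),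
    isCoprime_comm]
  exact (Nat.prime_iff_prime_int.mp hp).irreducible.coprime_iff_not_dvd

theorem cnp_mult (a b : ℕ) (ha : 0 < a) :
    ((Finset.range (a * b)).filter (fun y => a ∣ y)).card = b := by
  have h : (Finset.range (a * b)).filter (fun y => a ∣ y) =
      (Finset.range b).image (fun z => a * z) := by
    ext y
    simp only [Finset.mem_filter, Finset.mem_range, Finset.mem_image]
    constructor
    · rintro ⟨h1, z, rfl⟩
      exact ⟨z, Nat.lt_of_mul_lt_mul_left h1, rfl⟩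
    · rintro ⟨z, h1, rfl⟩
      exact ⟨Nat.mul_lt_mul_of_pos_left h1 ha, dvd_mul_right a z⟩
  rw [h, Finset.card_image_of_injective _ (fun x y hxy => Nat.eq_of_mul_eq_mul_left ha hxy),
    Finset.card_range]

theorem cnp_per (p : ℕ) (g : ℕ → ℤ) (hg : ∀ x, g (x + p) = g x) (m : ℕ) :
    ∑ x ∈ Finset.range (p * m), g x = m * ∑ x ∈ Finset.range p, g x := by
  have h1 : ∀ m x : ℕ, g (p * m + x) = g x := by
    intro m
    induction m with
    | zero => intro x; rw [mul_zero, zero_add]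
    | succ m ih =>
      intro x
      rw [← ih x, ← hg (p * m + x)]
      congr 1
      ring
  induction m with
  | zero => simp
  | succ m ih =>
    rw [mul_add, mul_one, Finset.sum_range_add, ih, Finset.sum_congr rfl fun x _ => h1 m x]
    push_cast
    ring

open Classical in
theorem cnp_zero (t n : ℤ) (p : ℕ) (hp : p.Prime) :
    ∑ y ∈ Finset.range p, ∑ x ∈ Finset.range p,
      (if (p : ℤ) ∣ (x : ℤ) ^ 2 + t * x * y + n * (y : ℤ) ^ 2 then (1 : ℤ) else 0) =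
      1 + (p - 1) * nrt p 1 t n := by
  have _ : Fact p.Prime := ⟨hp⟩
  have hc : ∀ y : ℕ, ∑ x ∈ Finset.range p,
      (if (p : ℤ) ∣ (x : ℤ) ^ 2 + t * x * y + n * (y : ℤ) ^ 2 then (1 : ℤ) else 0) =
      (((Finset.range p).filter fun x : ℕ =>
        (p : ℤ) ∣ (x : ℤ) ^ 2 + t * x * y + n * (y : ℤ) ^ 2).card : ℤ) := by
    intro y
    rw [Finset.card_filter]
    push_cast
    rfl
  obtain ⟨r, hr⟩ : ∃ r, p = r + 1 := ⟨p - 1, by have := hp.pos; omega⟩
  have h0 : (((Finset.range p).filter fun x : ℕ =>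
        (p : ℤ) ∣ (x : ℤ) ^ 2 + t * x * (0 : ℕ) + n * ((0 : ℕ) : ℤ) ^ 2).card : ℤ) = 1 := by
    have h1 : (Finset.range p).filter (fun x : ℕ =>
        (p : ℤ) ∣ (x : ℤ) ^ 2 + t * x * (0 : ℕ) + n * ((0 : ℕ) : ℤ) ^ 2) = {0} := by
      ext x
      simp only [Finset.mem_filter, Finset.mem_range, Finset.mem_singleton]
      constructor
      · rintro ⟨h2, h3⟩
        have h4 : (p : ℤ) ∣ (x : ℤ) ^ 2 := by
          have : (x : ℤ) ^ 2 + t * x * (0 : ℕ) + n * ((0 : ℕ) : ℤ) ^ 2 = (x : ℤ) ^ 2 := by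
            push_cast
            ring
          rwa [this] at h3
        have h5 : (p : ℤ) ∣ (x : ℤ) := (Nat.prime_iff_prime_int.mp hp).dvd_of_dvd_pow h4
        have h6 : p ∣ x := Int.natCast_dvd_natCast.mp h5
        exact Nat.eq_zero_of_dvd_of_lt h6 h2
      · rintro rfl
        exact ⟨hp.pos, by simp⟩
    rw [h1]
    simp
  have hy : ∀ y : ℕ, 0 < y → y < p → ((Finset.range p).filter fun x : ℕ =>
        (p : ℤ) ∣ (x : ℤ) ^ 2 + t * x * y + n * (y : ℤ) ^ 2).card = nrt p 1 t n := by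
    intro y hy0 hyp
    have hyz : (y : ZMod p) ≠ 0 := by
      intro h
      rw [ZMod.natCast_eq_zero_iff] at h
      exact absurd (Nat.le_of_dvd hy0 h) (by omega)
    unfold nrt
    symm
    have hred : ∀ a : ℤ, ((p : ℤ) ∣ a) ↔ ((a : ZMod p) = 0) := fun a =>
      (ZMod.intCast_zmod_eq_zero_iff_dvd a p).symm
    have hval : ∀ z : ZMod p, ((z.val : ℕ) : ZMod p) = z := fun z => ZMod.natCast_zmod_val z
    refine Finset.card_nbij' (fun j => (y * j : ZMod p).val) (fun x => ((y : ZMod p)⁻¹ * x).val)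
      ?_ ?_ ?_ ?_
    · intro j hj
      simp only [Finset.coe_filter, Finset.mem_range, Set.mem_ofPred_eq] at hj ⊢
      refine ⟨ZMod.val_lt _, ?_⟩
      have h1 := hj.2
      rw [hred] at h1 ⊢
      push_cast at h1 ⊢
      rw [hval]
      linear_combination (y : ZMod p) ^ 2 * h1
    · intro x hx
      simp only [Finset.coe_filter, Finset.mem_range, Set.mem_ofPred_eq] at hx ⊢
      refine ⟨ZMod.val_lt _, ?_⟩
      have h1 := hx.2
      rw [hred] at h1 ⊢
      push_cast at h1 ⊢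
      rw [hval]
      have h2 : (y : ZMod p) * (y : ZMod p)⁻¹ = 1 := mul_inv_cancel₀ hyz
      have h3 : (y : ZMod p) ^ 2 * (1 * ((y : ZMod p)⁻¹ * x) ^ 2 + t * ((y : ZMod p)⁻¹ * x) + n) = 0 := by
        have h4 : (y : ZMod p) ^ 2 * (1 * ((y : ZMod p)⁻¹ * x) ^ 2 + t * ((y : ZMod p)⁻¹ * x) + n) =
            ((y : ZMod p) * (y : ZMod p)⁻¹) ^ 2 * (x : ZMod p) ^ 2 +
              t * x * y * ((y : ZMod p) * (y : ZMod p)⁻¹) + n * (y : ZMod p) ^ 2 := by ring
        rw [h4, h2]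
        linear_combination h1
      exact (mul_eq_zero.mp h3).resolve_left (pow_ne_zero 2 hyz)
    · intro j hj
      simp only [Finset.coe_filter, Finset.mem_range, Set.mem_ofPred_eq] at hj
      show ((y : ZMod p)⁻¹ * (((y * j : ZMod p).val : ℕ) : ZMod p)).val = j
      rw [hval, ← mul_assoc, inv_mul_cancel₀ hyz, one_mul, ZMod.val_natCast_of_lt hj.1]
    · intro x hx
      simp only [Finset.coe_filter, Finset.mem_range, Set.mem_ofPred_eq] at hx
      show ((y : ZMod p) * ((((y : ZMod p)⁻¹ * x).val : ℕ) : ZMod p)).val = x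
      rw [hval, ← mul_assoc, mul_inv_cancel₀ hyz, one_mul, ZMod.val_natCast_of_lt hx.1]
  rw [Finset.sum_congr rfl fun y _ => hc y]
  have hsum : ∑ y ∈ Finset.range p, (((Finset.range p).filter fun x : ℕ =>
        (p : ℤ) ∣ (x : ℤ) ^ 2 + t * x * y + n * (y : ℤ) ^ 2).card : ℤ) =
      ∑ y ∈ Finset.range r, (((Finset.range p).filter fun x : ℕ =>
        (p : ℤ) ∣ (x : ℤ) ^ 2 + t * x * (y + 1 : ℕ) + n * ((y + 1 : ℕ) : ℤ) ^ 2).card : ℤ) +
      (((Finset.range p).filter fun x : ℕ =>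
        (p : ℤ) ∣ (x : ℤ) ^ 2 + t * x * (0 : ℕ) + n * ((0 : ℕ) : ℤ) ^ 2).card : ℤ) := by
    have h := Finset.sum_range_succ' (fun y : ℕ => (((Finset.range p).filter fun x : ℕ =>
        (p : ℤ) ∣ (x : ℤ) ^ 2 + t * x * y + n * (y : ℤ) ^ 2).card : ℤ)) r
    rw [← hr] at h
    exact h
  rw [hsum, h0]
  have h2 : ∀ y ∈ Finset.range r, (((Finset.range p).filter fun x : ℕ =>
        (p : ℤ) ∣ (x : ℤ) ^ 2 + t * x * (y + 1 : ℕ) + n * ((y + 1 : ℕ) : ℤ) ^ 2).card : ℤ) =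
        (nrt p 1 t n : ℤ) := by
    intro y hyr
    rw [Finset.mem_range] at hyr
    rw [hy (y + 1) (by omega) (by omega)]
  rw [Finset.sum_congr rfl h2, Finset.sum_const, Finset.card_range, nsmul_eq_mul]
  have h3 : (p : ℤ) - 1 = r := by rw [hr]; push_cast; ring
  rw [h3]
  ring

theorem pf_CNP : T_CNP := by
  classical
  intro t n p k j hp hk
  refine ⟨fun hjk => ?_, ?_⟩
  · have hset : prs t n (p ^ k) (p ^ j) =
        ((Finset.range (p ^ k)).filter (fun x => (p ^ k).Coprime x)) ×ˢ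
          ((Finset.range (p ^ k)).filter (fun y => p ^ (k - j) ∣ y)) := by
      ext ⟨x, y⟩
      simp only [prs, Finset.mem_filter, Finset.mem_product, Finset.mem_range]
      rw [Nat.pow_div hjk.le hp.pos, cnp_gcd _ p k hp hk, Nat.coprime_pow_left_iff (by omega),
        hp.coprime_iff_not_dvd]
      have hkey : p ^ (k - j) ∣ y → ((p : ℤ) ∣ (x : ℤ) ^ 2 + t * x * y + n * (y : ℤ) ^ 2 ↔
          p ∣ x) := by
        intro h
        have h1 : p ∣ y := (dvd_pow_self p (by omega)).trans h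
        have h2 : (p : ℤ) ∣ (y : ℤ) := Int.natCast_dvd_natCast.mpr h1
        have h3 : (p : ℤ) ∣ t * x * y + n * (y : ℤ) ^ 2 :=
          dvd_add (h2.mul_left _) ((dvd_pow h2 two_ne_zero).mul_left _)
        rw [add_assoc, dvd_add_left h3]
        constructor
        · intro h4
          exact Int.natCast_dvd_natCast.mp ((Nat.prime_iff_prime_int.mp hp).dvd_of_dvd_pow h4)
        · intro h4
          exact dvd_pow (Int.natCast_dvd_natCast.mpr h4) two_ne_zero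
      constructor
      · rintro ⟨⟨h1, h2⟩, h3, h4⟩
        exact ⟨⟨h1, fun h5 => h4 ((hkey h3).mpr h5)⟩, h2, h3⟩
      · rintro ⟨⟨h1, h4⟩, h2, h3⟩
        exact ⟨⟨h1, h2⟩, h3, fun h5 => h4 ((hkey h3).mp h5)⟩
    rw [hset, Finset.card_product, ← Nat.totient_eq_card_coprime]
    congr 1
    have h1 : p ^ k = p ^ (k - j) * p ^ j := by
      rw [← pow_add]
      congr 1
      omega
    rw [h1]
    exact cnp_mult _ _ (pow_pos hp.pos _)
  · obtain ⟨m, hm⟩ : ∃ m, m = p ^ (k - 1) := ⟨_, rfl⟩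
    have hpk : p ^ k = p * m := by
      rw [hm, ← pow_succ']
      congr 1
      omega
    have hcard : ((prs t n (p ^ k) (p ^ k)).card : ℤ) =
        ∑ x ∈ Finset.range (p * m), ∑ y ∈ Finset.range (p * m),
          (if ¬ (p : ℤ) ∣ (x : ℤ) ^ 2 + t * x * y + n * (y : ℤ) ^ 2 then (1 : ℤ) else 0) := by
      have h1 : prs t n (p ^ k) (p ^ k) = (Finset.range (p * m) ×ˢ Finset.range (p * m)).filter
          (fun v : ℕ × ℕ => ¬ (p : ℤ) ∣ (v.1 : ℤ) ^ 2 + t * v.1 * v.2 + n * (v.2 : ℤ) ^ 2) := by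
        unfold prs
        rw [← hpk]
        apply Finset.filter_congr
        intro v _
        rw [cnp_gcd _ p k hp hk, Nat.div_self (pow_pos hp.pos k)]
        simp
      rw [h1, Finset.card_filter, Finset.sum_product]
      push_cast
      rfl
    have hp2 : ∀ x : ℕ, ∑ y ∈ Finset.range (p * m),
          (if ¬ (p : ℤ) ∣ (x : ℤ) ^ 2 + t * x * y + n * (y : ℤ) ^ 2 then (1 : ℤ) else 0) =
        m * ∑ y ∈ Finset.range p,
          (if ¬ (p : ℤ) ∣ (x : ℤ) ^ 2 + t * x * y + n * (y : ℤ) ^ 2 then (1 : ℤ) else 0) := by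
      intro x
      apply cnp_per p (fun y : ℕ =>
        (if ¬ (p : ℤ) ∣ (x : ℤ) ^ 2 + t * x * y + n * (y : ℤ) ^ 2 then (1 : ℤ) else 0))
      intro y
      have h1 : ((p : ℤ) ∣ (x : ℤ) ^ 2 + t * x * ((y + p : ℕ) : ℤ) + n * ((y + p : ℕ) : ℤ) ^ 2) ↔
          ((p : ℤ) ∣ (x : ℤ) ^ 2 + t * x * y + n * (y : ℤ) ^ 2) := by
        have h2 : (x : ℤ) ^ 2 + t * x * ((y + p : ℕ) : ℤ) + n * ((y + p : ℕ) : ℤ) ^ 2 =
            (x : ℤ) ^ 2 + t * x * y + n * (y : ℤ) ^ 2 + p * (t * x + n * (2 * y + p)) := by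
          push_cast
          ring
        rw [h2, dvd_add_left (dvd_mul_right _ _)]
      show (if ¬ (p : ℤ) ∣ (x : ℤ) ^ 2 + t * x * ((y + p : ℕ) : ℤ) +
        n * ((y + p : ℕ) : ℤ) ^ 2 then (1 : ℤ) else 0) = _
      rw [if_congr (not_congr h1) rfl rfl]
    have hp1 : ∀ y : ℕ, ∑ x ∈ Finset.range (p * m),
          (if ¬ (p : ℤ) ∣ (x : ℤ) ^ 2 + t * x * y + n * (y : ℤ) ^ 2 then (1 : ℤ) else 0) =
        m * ∑ x ∈ Finset.range p,
          (if ¬ (p : ℤ) ∣ (x : ℤ) ^ 2 + t * x * y + n * (y : ℤ) ^ 2 then (1 : ℤ) else 0) := by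
      intro y
      apply cnp_per p (fun x : ℕ =>
        (if ¬ (p : ℤ) ∣ (x : ℤ) ^ 2 + t * x * y + n * (y : ℤ) ^ 2 then (1 : ℤ) else 0))
      intro x
      have h1 : ((p : ℤ) ∣ ((x + p : ℕ) : ℤ) ^ 2 + t * ((x + p : ℕ) : ℤ) * y + n * (y : ℤ) ^ 2) ↔
          ((p : ℤ) ∣ (x : ℤ) ^ 2 + t * x * y + n * (y : ℤ) ^ 2) := by
        have h2 : ((x + p : ℕ) : ℤ) ^ 2 + t * ((x + p : ℕ) : ℤ) * y + n * (y : ℤ) ^ 2 =
            (x : ℤ) ^ 2 + t * x * y + n * (y : ℤ) ^ 2 + p * (2 * x + p + t * y) := by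
          push_cast
          ring
        rw [h2, dvd_add_left (dvd_mul_right _ _)]
      show (if ¬ (p : ℤ) ∣ ((x + p : ℕ) : ℤ) ^ 2 + t * ((x + p : ℕ) : ℤ) * y +
        n * (y : ℤ) ^ 2 then (1 : ℤ) else 0) = _
      rw [if_congr (not_congr h1) rfl rfl]
    have htot : ∑ y ∈ Finset.range p, ∑ x ∈ Finset.range p,
          (if ¬ (p : ℤ) ∣ (x : ℤ) ^ 2 + t * x * y + n * (y : ℤ) ^ 2 then (1 : ℤ) else 0) =
        (p : ℤ) * p - (1 + (p - 1) * nrt p 1 t n) := by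
      rw [← cnp_zero t n p hp, eq_sub_iff_add_eq, ← Finset.sum_add_distrib]
      have h1 : ∀ y ∈ Finset.range p, (∑ x ∈ Finset.range p,
          (if ¬ (p : ℤ) ∣ (x : ℤ) ^ 2 + t * x * y + n * (y : ℤ) ^ 2 then (1 : ℤ) else 0)) +
          (∑ x ∈ Finset.range p,
          (if (p : ℤ) ∣ (x : ℤ) ^ 2 + t * x * y + n * (y : ℤ) ^ 2 then (1 : ℤ) else 0)) = p := by
        intro y _
        rw [← Finset.sum_add_distrib]
        have h2 : ∀ x ∈ Finset.range p,
          (if ¬ (p : ℤ) ∣ (x : ℤ) ^ 2 + t * x * y + n * (y : ℤ) ^ 2 then (1 : ℤ) else 0) +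
          (if (p : ℤ) ∣ (x : ℤ) ^ 2 + t * x * y + n * (y : ℤ) ^ 2 then (1 : ℤ) else 0) = 1 := by
          intro x _
          by_cases h : (p : ℤ) ∣ (x : ℤ) ^ 2 + t * x * y + n * (y : ℤ) ^ 2
          · rw [if_neg (not_not_intro h), if_pos h, zero_add]
          · rw [if_pos h, if_neg h, add_zero]
        rw [Finset.sum_congr rfl h2, Finset.sum_const, Finset.card_range, nsmul_eq_mul, mul_one]
      rw [Finset.sum_congr rfl h1, Finset.sum_const, Finset.card_range, nsmul_eq_mul]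
    rw [hcard, Finset.sum_congr rfl fun x _ => hp2 x, ← Finset.mul_sum, Finset.sum_comm,
      Finset.sum_congr rfl fun y _ => hp1 y, ← Finset.mul_sum, htot,
      Nat.totient_prime_pow hp (by omega), ← hm]
    have h1 : ((p - 1 : ℕ) : ℤ) = p - 1 := by
      rw [Nat.cast_sub hp.one_lt.le]
      rfl
    have h2 : ((p : ℤ) ^ (k - 1)) = m := by rw [hm]; push_cast; rfl
    rw [h2]
    push_cast
    rw [h1]
    ring

end Pool.Agent.H49.CF
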