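import Pool.Agent.H91.CF.TA

/-!
# The densities of the types for forms at the prime two (row ADN2)
-/

set_option autoImplicit false

open MeasureTheory Set Filter
open scoped Real

namespace Pool.Agent.H49.CF

open Pool.Agent.H31.CN Pool.Agent.H91.CF
open Pool.Agent.H96.CN (Av Per2)

/-- the condition in terms of the residue modulo `16` -/
def dnG (D : ℕ) (τ : ℤ) : Bool :=
  (D % 4 == 3 || D == 4 || D == 8) && ((if D % 8 = 7 then 1 else if D % 8 = 3 then -1 else 0 : ℤ) == τ)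

/-- the residue of the discriminant -/
def dnD (r B C : ℕ) : ℕ := (4 * r * C + 15 * B * B) % 16

/-- the number of pairs -/
def dnN (r : ℕ) (τ : ℤ) : ℕ :=
  ((List.range 32).map fun B => ((List.range 32).filter fun C => dnG (dnD r B C) τ).length).sum

theorem dnN_val : dnN 0 1 = 512 ∧ dnN 0 0 = 0 ∧ dnN 0 (-1) = 0 ∧ dnN 1 1 = 256 ∧ dnN 1 0 = 256 ∧
    dnN 1 (-1) = 256 ∧ dnN 2 1 = 512 ∧ dnN 2 0 = 256 ∧ dnN 2 (-1) = 0 ∧ dnN 3 1 = 256 ∧
    dnN 3 0 = 256 ∧ dnN 3 (-1) = 256 := by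
  decide +kernel

theorem dn_res (A B C : ℕ) :
    (4 * (A : ℤ) * C - (B : ℤ) ^ 2) % 16 = (dnD (A % 4) B C : ℤ) := by
  unfold dnD
  have h1 : 4 * (A : ℤ) * C - (B : ℤ) ^ 2 =
      ((4 * (A % 4) * C + 15 * B * B : ℕ) : ℤ) + 16 * (((A / 4 : ℕ) : ℤ) * C - (B : ℤ) ^ 2) := by
    have h2 : (A : ℤ) = 4 * ((A / 4 : ℕ) : ℤ) + ((A % 4 : ℕ) : ℤ) := by
      exact_mod_cast (Nat.div_add_mod A 4).symm
    push_cast at h2 ⊢
    linear_combination (4 * (C : ℤ)) * h2
  rw [h1, Int.add_mul_emod_self_left]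
  push_cast
  rfl

theorem dn_iff (A B C : ℕ) (τ : ℤ) :
    (gdp 2 (4 * (A : ℤ) * (C : ℤ) - (B : ℤ) ^ 2) ∧ ch 2 (4 * (A : ℤ) * (C : ℤ) - (B : ℤ) ^ 2) = τ) ↔
      dnG (dnD (A % 4) B C) τ = true := by
  have h := dn_res A B C
  have hlt : dnD (A % 4) B C < 16 := Nat.mod_lt _ (by norm_num)
  generalize 4 * (A : ℤ) * (C : ℤ) - (B : ℤ) ^ 2 = Δ at h ⊢
  generalize dnD (A % 4) B C = D at h hlt ⊢
  unfold gdp ch dnG
  rw [if_pos rfl, if_pos rfl]
  simp only [Bool.and_eq_true, Bool.or_eq_true, beq_iff_eq]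
  have e1 : (Δ % 4 = 3) ↔ (D % 4 = 3) := by omega
  have e2 : (Δ % 16 = 4) ↔ (D = 4) := by omega
  have e3 : (Δ % 16 = 8) ↔ (D = 8) := by omega
  have e4 : (Δ % 8 = 7) ↔ (D % 8 = 7) := by omega
  have e5 : (Δ % 8 = 3) ↔ (D % 8 = 3) := by omega
  rw [e1, e2, e3, or_assoc]
  simp only [e4, e5]

theorem dn_sum (f : ℕ → ℕ → Bool) (m n : ℕ) :
    ∑ B ∈ Finset.range m, ∑ C ∈ Finset.range n, (if f B C = true then (1 : ℝ) else 0) =
      ((((List.range m).map fun B => ((List.range n).filter fun C => f B C).length).sum : ℕ) : ℝ) := by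
  have h1 : ∀ (g : ℕ → Bool) (n : ℕ), ∑ C ∈ Finset.range n, (if g C = true then (1 : ℝ) else 0) =
      (((List.range n).filter g).length : ℝ) := by
    intro g n
    induction n with
    | zero => simp
    | succ n ih =>
      rw [Finset.sum_range_succ, ih, List.range_succ, List.filter_append, List.length_append]
      by_cases h : g n = true
      · rw [if_pos h]
        simp [h]
      · rw [if_neg h]
        simp [h]
  induction m with
  | zero => simp
  | succ m ih =>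
    rw [Finset.sum_range_succ, ih, h1, List.range_succ, List.map_append, List.sum_append]
    simp

theorem pf_DN2 : T_DN2 := by
  intro A τ hA hτ
  classical
  have hav : Av (ql 2) (fun B C => if gdp 2 (4 * A * C - B ^ 2) ∧
      ch 2 (4 * A * C - B ^ 2) = τ then 1 else 0) = (1 / 1024) * (dnN (A % 4) τ : ℝ) := by
    unfold Av
    have hq : ql 2 = 32 := by
      unfold ql
      norm_num
    rw [hq]
    have h1 : ∀ B ∈ Finset.range 32, ∀ C ∈ Finset.range 32,
        (if gdp 2 (4 * (A : ℤ) * (C : ℤ) - (B : ℤ) ^ 2) ∧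
          ch 2 (4 * (A : ℤ) * (C : ℤ) - (B : ℤ) ^ 2) = τ then (1 : ℝ) else 0) =
        if dnG (dnD (A % 4) B C) τ = true then (1 : ℝ) else 0 := by
      intro B _ C _
      rw [if_congr (dn_iff A B C τ) rfl rfl]
    have h2 : ∑ B ∈ Finset.range 32, ∑ C ∈ Finset.range 32,
        (if dnG (dnD (A % 4) B C) τ = true then (1 : ℝ) else 0) = (dnN (A % 4) τ : ℝ) :=
      dn_sum (fun B C => dnG (dnD (A % 4) B C) τ) 32 32
    have h3 : (1 / ((32 : ℕ) : ℝ) ^ 2) = 1 / 1024 := by norm_num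
    rw [Finset.sum_congr rfl fun B hB => Finset.sum_congr rfl fun C hC => h1 B hB C hC, h2, h3]
  rw [hav]
  obtain ⟨a1, a2, a3, b1, b2, b3, c1, c2, c3, d1, d2, d3⟩ := dnN_val
  simp only [Finset.mem_insert, Finset.mem_singleton] at hτ
  unfold ddA dd
  have hr : A % 4 = 0 ∨ A % 4 = 1 ∨ A % 4 = 2 ∨ A % 4 = 3 := by omega
  rcases hr with h | h | h | h
  · have h2 : 2 ∣ A := by omega
    have h4 : 2 ^ 2 ∣ A := by omega
    have h5 : 4 ∣ A := by omega
    rcases hτ with rfl | rfl | rfl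
    · rw [h, a3]; norm_num [h2, h4, h5]
    · rw [h, a2]; norm_num [h2, h4, h5]
    · rw [h, a1]; norm_num [h2, h4, h5]
  · have h2 : ¬ 2 ∣ A := by omega
    rcases hτ with rfl | rfl | rfl
    · rw [h, b3]; norm_num [h2]
    · rw [h, b2]; norm_num [h2]
    · rw [h, b1]; norm_num [h2]
  · have h2 : 2 ∣ A := by omega
    have h4 : ¬ 2 ^ 2 ∣ A := by omega
    rcases hτ with rfl | rfl | rfl
    · rw [h, c3]; norm_num [h2]
    · rw [h, c2, if_neg (not_not_intro h2), if_neg (by norm_num), if_pos ⟨rfl, h4⟩]; norm_num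
    · rw [h, c1]; norm_num [h2]
  · have h2 : ¬ 2 ∣ A := by omega
    rcases hτ with rfl | rfl | rfl
    · rw [h, d3]; norm_num [h2]
    · rw [h, d2]; norm_num [h2]
    · rw [h, d1]; norm_num [h2]

end Pool.Agent.H49.CF
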