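import Pool.Agent.H95.CF.Targets
import Pool.Agent.H16.CN.CG

/-!
# The Hecke relation for sums over ideals with a multiplicative function (row PMUL)
-/

set_option autoImplicit false

open NumberField Module MeasureTheory Set Filter Pool.Agent.H31.CN Pool.Agent.H95.CF
open scoped nonZeroDivisors Real

namespace Pool.Agent.H49.CF

section

variable {K : Type} [Field K] [NumberField K]

open Classical in
theorem mul_shift (χ : (Ideal (𝓞 K))⁰ → ℂ) (q : ℝ) (P : (Ideal (𝓞 K))⁰)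
    (hχ : ∀ J : (Ideal (𝓞 K))⁰, χ (P * J) = χ P * χ J)
    (h : HasSum (fun J : (Ideal (𝓞 K))⁰ => χ J *
      ((Vk (Ideal.absNorm (J : Ideal (𝓞 K)) / q) /
        Real.sqrt (Ideal.absNorm (J : Ideal (𝓞 K))) : ℝ) : ℂ)) 0) :
    HasSum (fun J : (Ideal (𝓞 K))⁰ => if (P : Ideal (𝓞 K)) ∣ (J : Ideal (𝓞 K)) then
      χ J * ((Vk (Ideal.absNorm (J : Ideal (𝓞 K)) /
        ((Ideal.absNorm (P : Ideal (𝓞 K)) : ℕ) * q)) /
          Real.sqrt (Ideal.absNorm (J : Ideal (𝓞 K))) : ℝ) : ℂ) else 0) 0 := by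
  have hinj : Function.Injective (fun J : (Ideal (𝓞 K))⁰ => P * J) := by
    intro J J' hJ
    have h1 : (P : Ideal (𝓞 K)) * J = P * J' := congrArg Subtype.val hJ
    exact Subtype.ext (mul_left_cancel₀ (nonZeroDivisors.coe_ne_zero P) h1)
  rw [← hinj.hasSum_iff]
  · have h2 := h.mul_left (χ P *
      (((Real.sqrt (Ideal.absNorm (P : Ideal (𝓞 K)) : ℝ))⁻¹ : ℝ) : ℂ))
    rw [mul_zero] at h2
    refine h2.congr_fun ?_
    intro J
    have hP := Pool.Agent.H16.CN.absNorm_pos P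
    have hP' : (0 : ℝ) < (Ideal.absNorm (P : Ideal (𝓞 K)) : ℝ) := by exact_mod_cast hP
    have h3 : (P : Ideal (𝓞 K)) ∣ ((P * J : (Ideal (𝓞 K))⁰) : Ideal (𝓞 K)) := ⟨J, rfl⟩
    simp only [Function.comp_apply, if_pos h3]
    rw [hχ J]
    have h4 : Vk ((Ideal.absNorm ((P * J : (Ideal (𝓞 K))⁰) : Ideal (𝓞 K)) : ℝ) /
        ((Ideal.absNorm (P : Ideal (𝓞 K)) : ℕ) * q)) /
          Real.sqrt (Ideal.absNorm ((P * J : (Ideal (𝓞 K))⁰) : Ideal (𝓞 K)) : ℝ) =
        (Real.sqrt (Ideal.absNorm (P : Ideal (𝓞 K)) : ℝ))⁻¹ *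
          (Vk ((Ideal.absNorm (J : Ideal (𝓞 K)) : ℝ) / q) /
            Real.sqrt (Ideal.absNorm (J : Ideal (𝓞 K)) : ℝ)) := by
      rw [Submonoid.coe_mul, map_mul]
      push_cast
      rw [Real.sqrt_mul hP'.le, mul_div_mul_left _ _ hP'.ne']
      rw [div_mul_eq_div_div_swap]
      ring
    rw [h4]
    push_cast
    ring
  · intro J hJ
    rw [if_neg]
    rintro ⟨c, hc⟩
    apply hJ
    have hc0 : c ≠ 0 := by
      rintro rfl
      rw [mul_zero] at hc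
      exact nonZeroDivisors.coe_ne_zero J hc
    exact ⟨⟨c, mem_nonZeroDivisors_of_ne_zero hc0⟩, Subtype.ext hc.symm⟩

end

theorem pf_MUL : T_MUL := by
  intro K _ _ χ q m hm hχ h
  classical
  have h1 : ∀ P ∈ Pool.Agent.H16.CN.Tm K m, HasSum (fun J : (Ideal (𝓞 K))⁰ =>
      if (P : Ideal (𝓞 K)) ∣ (J : Ideal (𝓞 K)) then
      χ J * ((Vk (Ideal.absNorm (J : Ideal (𝓞 K)) / (m * q)) /
        Real.sqrt (Ideal.absNorm (J : Ideal (𝓞 K))) : ℝ) : ℂ) else 0) 0 := by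
    intro P hP
    rw [Pool.Agent.H16.CN.mem_Tm] at hP
    have hP0 : P ≠ 0 := by
      rintro rfl
      have : Ideal.absNorm (0 : Ideal (𝓞 K)) = 0 := map_zero _
      omega
    have h2 := mul_shift χ q ⟨P, mem_nonZeroDivisors_of_ne_zero hP0⟩ (fun J => hχ _ J hP) h
    simp only [hP] at h2
    exact h2
  have h2 := hasSum_sum h1
  rw [Finset.sum_const_zero] at h2
  refine h2.congr_fun ?_
  intro J
  rw [← Finset.sum_filter, Finset.sum_const, nsmul_eq_mul, Pool.Agent.H16.CN.card_cnt]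
  unfold Pool.Agent.H16.CN.cnt
  push_cast
  ring

end Pool.Agent.H49.CF
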